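import Pool.Agent.Helper63_ANR.GRN
import Pool.Agent.Helper77_ANR.DIR
import Pool.Agent.Helper72_ANR.GEQ
import Pool.Agent.Helper31_ANR.QSY
import Pool.Agent.Helper92_ANR.LV1
import Pool.Agent.Helper17_ANR.LV2
import Pool.Agent.Helper20_ANR.LV0
import Pool.Agent.Helper90_ANR.LVS
import Pool.Agent.Helper84_ANR.YHH
import Pool.Agent.Helper44_ANR.FRM
import Pool.Agent.Helper60_ANR.CUT
import Pool.Agent.Helper60_ANR.LVI
import Pool.Agent.Helper99_ANR.FRX
import Pool.Agent.Helper49_ANR.RKB
import Pool.Agent.Helper81_ANR.FLR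
import Pool.Agent.Helper52_ANR.LMR
import Pool.Agent.Helper92_ANR.REV

/-!
# The tank ANR (release of sites): all rows without hypotheses
-/

set_option autoImplicit false

namespace Pool.Agent.ANR.H76

theorem grn : GrnStmt := H63.grn
theorem dir : DirStmt := H77.dir grn
theorem geq : GeqStmt := H72.geq dir grn
theorem qsy : QsyStmt := H31.qsy grn
theorem lv1 : Lv1Stmt := H92.lv1 grn dir qsy
theorem lv2 : Lv2Stmt := H17.lv2 lv1 dir geq
theorem lv0 : Lv0Stmt := H20.lv0 geq dir
theorem lvs : LvsStmt := H90.lvs dir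
theorem tal : TalStmt := H17.tal
theorem yhh : YhhStmt := H84.yhh lv2 geq
theorem frm : FrmStmt := H44.frm lv2 geq
theorem cut : CutStmt := H60.cut
theorem lvi : LviStmt := H60.lvi
theorem frx : FrxStmt := H99.frx
theorem rkb : RkbStmt := H49.rkb lv2 lvs
theorem flr : FlrStmt := H81.flr
theorem lmr : LmrStmt := H52.lmr
theorem thd : ThdStmt := H49.thd
theorem rev : RevStmt := H92.rev lv2 geq

end Pool.Agent.ANR.H76
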